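import Pool.Agent.H852R2.EX.Par
import Pool.Agent.H852R2.EX.S.AMPQ
import Pool.Agent.H852R2.EX.S.RT
import Pool.Agent.H14R2.RC.Low

/-! Task ZLOW of the project EX (MP_75608d_al). -/

namespace RC852
open RC14 Finset Filter

namespace ZLOW

section
variable {G : Type*} [Group G] [Fintype G]
variable {V : Type*} [NormedAddCommGroup V] [InnerProductSpace ℂ V] [FiniteDimensional ℂ V]

/-- `AMPQ` with one round -/
lemma ampq1 (ρ : G →* (V ≃ₗᵢ[ℂ] V)) (W : Submodule ℂ V) (hW : Irr ρ W) (q m : ℕ)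
    (x b : Fin q → G) (L : ℕ) (η : ℝ)
    (hη : RS ρ W hW.2.1 x b m (2 * L) ≤ η * Module.finrank ℂ W)
    (hq : 8 ≤ q) (Λ : ℝ) (hΛ : 70 ≤ Λ)
    (hηΛ : (8 / 7 : ℝ) ^ (2 * L) * η ≤ Real.exp (-Λ))
    (hd : (Module.finrank ℂ W : ℝ) < Real.exp (Λ * (q / 8 : ℝ))) :
    (Nat.card {z : Fin q → G // ¬ ∀ v ∈ W,
        1 / 4 * ‖v‖ ^ 2 ≤
          48 * (m : ℝ) ^ 2 / q * En ρ x v + 8 / (q : ℝ) * En ρ b v +
            1 / (q : ℝ) * En ρ z v} : ℝ) ≤
      Real.exp (-(Λ * q / 8)) * (Fintype.card G : ℝ) ^ q := by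
  have h := AMPQ ρ W hW q m x b L η hη 1 hq Λ hΛ hηΛ (by simpa using hd)
  have e : Nat.card {z : Fin 1 → Fin q → G // ¬ ∀ v ∈ W,
        (1 / 4 : ℝ) ^ 1 * ‖v‖ ^ 2 ≤
          48 * (m : ℝ) ^ 2 / q * En ρ x v + 8 / (q : ℝ) * En ρ b v +
            1 / (q : ℝ) * ∑ r, En ρ (z r) v} =
      Nat.card {z : Fin q → G // ¬ ∀ v ∈ W,
        1 / 4 * ‖v‖ ^ 2 ≤
          48 * (m : ℝ) ^ 2 / q * En ρ x v + 8 / (q : ℝ) * En ρ b v +
            1 / (q : ℝ) * En ρ z v} := by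
    refine card_equiv (Equiv.funUnique (Fin 1) (Fin q → G)) _ _ ?_
    intro z
    have hz : (Equiv.funUnique (Fin 1) (Fin q → G)) z = z 0 := rfl
    rw [hz]
    simp only [pow_one, Finset.univ_unique, Fin.default_eq_zero, Fin.isValue,
      Finset.sum_singleton]
  rw [e] at h
  simpa using h

/-- union bound over the components of an invariant subspace -/
lemma ubq (ρ : G →* (V ≃ₗᵢ[ℂ] V)) (M : Submodule ℂ V) (hM : Inv ρ M) (q m : ℕ)
    (x b : Fin q → G) (L : ℕ) (η : ℝ)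
    (hη : ∀ (W : Submodule ℂ V) (hW : Irr ρ W), W ≤ M →
      RS ρ W hW.2.1 x b m (2 * L) ≤ η * Module.finrank ℂ W)
    (hq : 8 ≤ q) (Λ : ℝ) (hΛ : 70 ≤ Λ)
    (hηΛ : (8 / 7 : ℝ) ^ (2 * L) * η ≤ Real.exp (-Λ))
    (D : ℕ) (hD : Module.finrank ℂ M ≤ D)
    (hd : (D : ℝ) < Real.exp (Λ * (q / 8 : ℝ))) :
    (Nat.card {z : Fin q → G // ¬ ∀ v ∈ M,
        1 / 4 * ‖v‖ ^ 2 ≤
          48 * (m : ℝ) ^ 2 / q * En ρ x v + 8 / (q : ℝ) * En ρ b v +
            1 / (q : ℝ) * En ρ z v} : ℝ) ≤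
      D * (Real.exp (-(Λ * q / 8)) * (Fintype.card G : ℝ) ^ q) := by
  obtain ⟨N, W, hN, hW, hdec⟩ := DECOMP ρ M hM
  have step : Nat.card {z : Fin q → G // ¬ ∀ v ∈ M,
        1 / 4 * ‖v‖ ^ 2 ≤
          48 * (m : ℝ) ^ 2 / q * En ρ x v + 8 / (q : ℝ) * En ρ b v +
            1 / (q : ℝ) * En ρ z v} ≤
      ∑ i, Nat.card {z : Fin q → G // ¬ ∀ v ∈ W i,
        1 / 4 * ‖v‖ ^ 2 ≤
          48 * (m : ℝ) ^ 2 / q * En ρ x v + 8 / (q : ℝ) * En ρ b v +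
            1 / (q : ℝ) * En ρ z v} := by
    apply RC14.card_union
    intro z hz
    by_contra hcon
    push Not at hcon
    apply hz
    intro v hv
    have key : ∀ v : V, ∑ t, (Fin.append (Fin.append (fun _ : Fin q => 48 * (m : ℝ) ^ 2 / q)
        (fun _ : Fin q => 8 / (q : ℝ))) (fun _ : Fin q => 1 / (q : ℝ))) t *
          ‖ρ (Fin.append (Fin.append x b) z t) v - v‖ ^ 2 =
        48 * (m : ℝ) ^ 2 / q * En ρ x v + 8 / (q : ℝ) * En ρ b v +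
            1 / (q : ℝ) * En ρ z v := by
      intro v
      rw [Fin.sum_univ_add, Fin.sum_univ_add]
      simp only [Fin.append_left, Fin.append_right, En, Finset.mul_sum]
    have := hdec (q + q + q) (Fin.append (Fin.append x b) z)
      (Fin.append (Fin.append (fun _ : Fin q => 48 * (m : ℝ) ^ 2 / q)
        (fun _ : Fin q => 8 / (q : ℝ))) (fun _ : Fin q => 1 / (q : ℝ))) (1 / 4)
      ?_ ?_ v hv
    · rwa [key] at this
    · intro i
      refine Fin.addCases (fun i => ?_) (fun i => ?_) i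
      · rw [Fin.append_left]
        refine Fin.addCases (fun i => ?_) (fun i => ?_) i
        · rw [Fin.append_left]; positivity
        · rw [Fin.append_right]; positivity
      · rw [Fin.append_right]; positivity
    · intro i v hv
      rw [key]
      exact hcon i v hv
  have hb : ∀ i, (Nat.card {z : Fin q → G // ¬ ∀ v ∈ W i,
        1 / 4 * ‖v‖ ^ 2 ≤
          48 * (m : ℝ) ^ 2 / q * En ρ x v + 8 / (q : ℝ) * En ρ b v +
            1 / (q : ℝ) * En ρ z v} : ℝ) ≤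
      Real.exp (-(Λ * q / 8)) * (Fintype.card G : ℝ) ^ q := by
    intro i
    refine ampq1 ρ (W i) (hW i).1 q m x b L η (hη (W i) (hW i).1 (hW i).2) hq Λ hΛ hηΛ ?_
    have : (Module.finrank ℂ (W i) : ℝ) ≤ D := by
      exact_mod_cast (Submodule.finrank_mono (hW i).2).trans hD
    linarith
  calc (Nat.card {z : Fin q → G // ¬ ∀ v ∈ M,
        1 / 4 * ‖v‖ ^ 2 ≤
          48 * (m : ℝ) ^ 2 / q * En ρ x v + 8 / (q : ℝ) * En ρ b v +
            1 / (q : ℝ) * En ρ z v} : ℝ)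
      ≤ ∑ i, (Nat.card {z : Fin q → G // ¬ ∀ v ∈ W i,
        1 / 4 * ‖v‖ ^ 2 ≤
          48 * (m : ℝ) ^ 2 / q * En ρ x v + 8 / (q : ℝ) * En ρ b v +
            1 / (q : ℝ) * En ρ z v} : ℝ) := by exact_mod_cast step
    _ ≤ ∑ i : Fin N, Real.exp (-(Λ * q / 8)) * (Fintype.card G : ℝ) ^ q :=
        Finset.sum_le_sum fun i _ => hb i
    _ = N * (Real.exp (-(Λ * q / 8)) * (Fintype.card G : ℝ) ^ q) := by
        simp
    _ ≤ D * (Real.exp (-(Λ * q / 8)) * (Fintype.card G : ℝ) ^ q) := by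
        have : (N : ℝ) ≤ D := by exact_mod_cast hN.trans hD
        gcongr
end

lemma num1 : (8 / 7 : ℝ) ^ 64 ≤ Real.exp 9 := by
  have h1 : (2.718 : ℝ) ≤ Real.exp 1 := by
    have := Real.exp_one_gt_d9
    linarith
  have h2 : Real.exp 9 = Real.exp 1 ^ 9 := by
    rw [← Real.exp_nat_mul]; norm_num
  rw [h2]
  calc (8 / 7 : ℝ) ^ 64 ≤ 2.718 ^ 9 := by norm_num
    _ ≤ Real.exp 1 ^ 9 := by gcongr

lemma num2 (j : ℕ) : (8 / 7 : ℝ) ^ (2 * (32 * j)) * Real.exp (-(79 * j)) ≤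
    Real.exp (-(70 * j)) := by
  have e : (8 / 7 : ℝ) ^ (2 * (32 * j)) = ((8 / 7 : ℝ) ^ 64) ^ j := by
    rw [← pow_mul]; congr 1; ring
  have h : ((8 / 7 : ℝ) ^ 64) ^ j ≤ Real.exp (9 * j) := by
    have h2 : Real.exp (9 * j) = Real.exp 9 ^ j := by
      rw [← Real.exp_nat_mul]; congr 1; ring
    rw [h2]
    exact pow_le_pow_left₀ (by positivity) num1 j
  rw [e]
  calc ((8 / 7 : ℝ) ^ 64) ^ j * Real.exp (-(79 * j)) ≤
      Real.exp (9 * j) * Real.exp (-(79 * j)) := by gcongr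
    _ = Real.exp (-(70 * j)) := by rw [← Real.exp_add]; congr 1; ring

lemma m0_le (n : ℕ) (hn : 1 ≤ n) : m0 n ≤ n := by
  unfold m0
  have h1 : Real.exp (-81) ≤ 1 := Real.exp_le_one_iff.mpr (by norm_num)
  have h2 : Real.sqrt n ≤ n := by
    rw [Real.sqrt_le_left (by positivity)]
    have : (1 : ℝ) ≤ n := by exact_mod_cast hn
    nlinarith
  have h3 : Real.exp (-81) * Real.sqrt n ≤ n := by
    calc Real.exp (-81) * Real.sqrt n ≤ 1 * n := by gcongr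
      _ = n := one_mul _
  exact_mod_cast (Nat.floor_le (by positivity)).trans h3

end ZLOW

open ZLOW in
/-- one round suffices for the levels up to `m0 n` -/
theorem ZLOW : ∀ᶠ n : ℕ in atTop, ∀ (q m : ℕ) (x b : Fin q → Alt n),
    Real.log n ≤ q → GoodB (gx x m) (cb b) →
    (Nat.card {z : Fin q → Alt n // ¬ ∀ j, 1 ≤ j → j ≤ m0 n → ∀ v ∈ Lvl j n,
        1 / 4 * ‖v‖ ^ 2 ≤ 48 * (m : ℝ) ^ 2 / q * En (repA j n) x v +
          8 / (q : ℝ) * En (repA j n) b v + 1 / (q : ℝ) * En (repA j n) z v} : ℝ) ≤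
      1 / (n : ℝ) * (Fintype.card (Alt n) : ℝ) ^ q := by
  have hlog : ∀ᶠ n : ℕ in atTop, (8 : ℝ) ≤ Real.log n :=
    (Real.tendsto_log_atTop.comp tendsto_natCast_atTop_atTop).eventually_ge_atTop 8
  filter_upwards [RTLOW, hlog, eventually_ge_atTop 1] with n hRT hlog hn1
  intro q m x b hq hG
  have hq8 : 8 ≤ q := by
    have : (8 : ℝ) ≤ q := hlog.trans hq
    exact_mod_cast this
  have hnpos : (0 : ℝ) < n := by exact_mod_cast hn1
  have step : Nat.card {z : Fin q → Alt n // ¬ ∀ j, 1 ≤ j → j ≤ m0 n → ∀ v ∈ Lvl j n,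
        1 / 4 * ‖v‖ ^ 2 ≤ 48 * (m : ℝ) ^ 2 / q * En (repA j n) x v +
          8 / (q : ℝ) * En (repA j n) b v + 1 / (q : ℝ) * En (repA j n) z v} ≤
      ∑ j ∈ Finset.Icc 1 (m0 n), Nat.card {z : Fin q → Alt n // ¬ ∀ v ∈ Lvl j n,
        1 / 4 * ‖v‖ ^ 2 ≤ 48 * (m : ℝ) ^ 2 / q * En (repA j n) x v +
          8 / (q : ℝ) * En (repA j n) b v + 1 / (q : ℝ) * En (repA j n) z v} := by
    apply RC14.card_union_fin
    intro z hz
    by_contra hcon
    push Not at hcon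
    exact hz fun j h1 h2 => hcon j (Finset.mem_Icc.mpr ⟨h1, h2⟩)
  have hj : ∀ j ∈ Finset.Icc 1 (m0 n), (Nat.card {z : Fin q → Alt n // ¬ ∀ v ∈ Lvl j n,
        1 / 4 * ‖v‖ ^ 2 ≤ 48 * (m : ℝ) ^ 2 / q * En (repA j n) x v +
          8 / (q : ℝ) * En (repA j n) b v + 1 / (q : ℝ) * En (repA j n) z v} : ℝ) ≤
      1 / (n : ℝ) ^ 2 * (Fintype.card (Alt n) : ℝ) ^ q := by
    intro j hj
    rw [Finset.mem_Icc] at hj
    have hj1 : (1 : ℝ) ≤ j := by exact_mod_cast hj.1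
    have hq0 : (8 : ℝ) ≤ q := by exact_mod_cast hq8
    have hnj : ((n ^ j : ℕ) : ℝ) = Real.exp (j * Real.log n) := by
      push_cast
      rw [Real.exp_nat_mul, Real.exp_log hnpos]
    have hjl : (j : ℝ) * Real.log n ≤ j * q := by gcongr
    have hjl8 : (8 : ℝ) ≤ j * Real.log n := by nlinarith
    have h1 := ubq (repA j n) (Lvl j n) (Lvl_inv j n) q m x b (32 * j) (Real.exp (-(79 * j)))
      (fun W hW hWL => hRT q m x b (by omega) hG j hj.1 hj.2 W hW hWL) hq8 (70 * j)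
      (by linarith) (num2 j) (n ^ j) (finrank_le_pow _)
      (by
        rw [hnj]
        apply Real.exp_lt_exp.mpr
        nlinarith)
    refine h1.trans ?_
    rw [← mul_assoc]
    gcongr
    rw [hnj, ← Real.exp_add]
    have h2 : (1 : ℝ) / (n : ℝ) ^ 2 = Real.exp (-(2 * Real.log n)) := by
      rw [Real.exp_neg, show (2 : ℝ) * Real.log n = ((2 : ℕ) : ℝ) * Real.log n by norm_num,
        Real.exp_nat_mul, Real.exp_log hnpos, one_div]
    rw [h2]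
    apply Real.exp_le_exp.mpr
    have h3 : Real.log n ≤ j * Real.log n := by nlinarith
    nlinarith
  calc (Nat.card {z : Fin q → Alt n // ¬ ∀ j, 1 ≤ j → j ≤ m0 n → ∀ v ∈ Lvl j n,
        1 / 4 * ‖v‖ ^ 2 ≤ 48 * (m : ℝ) ^ 2 / q * En (repA j n) x v +
          8 / (q : ℝ) * En (repA j n) b v + 1 / (q : ℝ) * En (repA j n) z v} : ℝ)
      ≤ ∑ j ∈ Finset.Icc 1 (m0 n), (Nat.card {z : Fin q → Alt n // ¬ ∀ v ∈ Lvl j n,
        1 / 4 * ‖v‖ ^ 2 ≤ 48 * (m : ℝ) ^ 2 / q * En (repA j n) x v +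
          8 / (q : ℝ) * En (repA j n) b v + 1 / (q : ℝ) * En (repA j n) z v} : ℝ) := by
        exact_mod_cast step
    _ ≤ ∑ _j ∈ Finset.Icc 1 (m0 n), 1 / (n : ℝ) ^ 2 * (Fintype.card (Alt n) : ℝ) ^ q :=
        Finset.sum_le_sum hj
    _ = (m0 n : ℝ) * (1 / (n : ℝ) ^ 2 * (Fintype.card (Alt n) : ℝ) ^ q) := by
        simp
    _ ≤ (n : ℝ) * (1 / (n : ℝ) ^ 2 * (Fintype.card (Alt n) : ℝ) ^ q) := by
        have : (m0 n : ℝ) ≤ n := by exact_mod_cast m0_le n hn1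
        gcongr
    _ = 1 / (n : ℝ) * (Fintype.card (Alt n) : ℝ) ^ q := by
        field_simp

end RC852
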